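import Pool.Agent.H261R3.LH.Stmts

set_option autoImplicit false

open scoped NNReal unitInterval

namespace Pool.Agent.H275R3.LH

open Pool.Agent.H261R3.LH

/-- Lipschitz approximation by inf-convolution -/
theorem lip_approx {X : Type} [MetricSpace X] [CompactSpace X] [Nonempty X] (d : X → ℝ)
    (hd : Continuous d) (ε : ℝ) (hε : 0 < ε) :
    ∃ (n : ℝ) (P : X → ℝ), 0 ≤ n ∧ (∀ x y, |P x - P y| ≤ n * dist x y) ∧
      ∀ x, |P x - d x| ≤ ε := by
  obtain ⟨M, hM⟩ := isCompact_univ.exists_bound_of_continuousOn hd.continuousOn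
  have hM' : ∀ x, |d x| ≤ M := fun x => by
    rw [← Real.norm_eq_abs]; exact hM x (Set.mem_univ x)
  have hM0 : 0 ≤ M := le_trans (abs_nonneg _) (hM' (Classical.arbitrary X))
  have huc := CompactSpace.uniformContinuous_of_continuous hd
  obtain ⟨δ, hδ, hδ'⟩ := Metric.uniformContinuous_iff.1 huc ε hε
  set n : ℝ := 2 * M / δ with hn
  have hn0 : 0 ≤ n := by positivity
  set P : X → ℝ := fun x => ⨅ y, (d y + n * dist x y) with hP
  have hbdd : ∀ x, BddBelow (Set.range fun y => d y + n * dist x y) := by
    intro x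
    refine ⟨-M, ?_⟩
    rintro _ ⟨y, rfl⟩
    have h1 := (abs_le.1 (hM' y)).1
    have h2 : 0 ≤ n * dist x y := by positivity
    simp only
    linarith
  have hle : ∀ x z, P x ≤ d z + n * dist x z := fun x z => ciInf_le (hbdd x) z
  have hlip : ∀ x y, P x - P y ≤ n * dist x y := by
    intro x y
    have h1 : P x - n * dist x y ≤ P y := by
      apply le_ciInf
      intro z
      have h2 := hle x z
      have h3 := dist_triangle x y z
      have h4 : n * dist x z ≤ n * (dist x y + dist y z) := mul_le_mul_of_nonneg_left h3 hn0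
      linarith
    linarith
  refine ⟨n, P, hn0, ?_, ?_⟩
  · intro x y
    rw [abs_le]
    have h1 := hlip x y
    have h2 := hlip y x
    rw [dist_comm y x] at h2
    constructor <;> linarith
  · intro x
    rw [abs_le]
    constructor
    · have h1 : d x - ε ≤ P x := by
        apply le_ciInf
        intro y
        by_cases hxy : dist x y < δ
        · have h2 := hδ' hxy
          rw [Real.dist_eq] at h2
          have h3 := (abs_lt.1 h2).2
          have h4 : 0 ≤ n * dist x y := by positivity
          linarith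
        · push Not at hxy
          have h2 : n * δ ≤ n * dist x y := mul_le_mul_of_nonneg_left hxy hn0
          have h3 : n * δ = 2 * M := by rw [hn]; field_simp
          have h4 := (abs_le.1 (hM' x)).2
          have h5 := (abs_le.1 (hM' y)).1
          linarith
      linarith
    · have := hle x x
      rw [dist_self] at this
      linarith

theorem lip_approx0 {X : Type} [MetricSpace X] [CompactSpace X] [Nonempty X] (d : X → ℝ)
    (hd : Continuous d) (ε : ℝ) (hε : 0 < ε) :
    ∃ (n : ℝ) (P : X → ℝ), 0 ≤ n ∧ (∀ x y, |P x - P y| ≤ n * dist x y) ∧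
      (∀ x, |P x - d x| ≤ ε) ∧ ∀ x, d x = 0 → P x = 0 := by
  obtain ⟨n, P, hn, h1, h2⟩ := lip_approx d hd (ε / 2) (by positivity)
  refine ⟨2 * n, fun x => P x - max (-(ε / 2)) (min (ε / 2) (P x)), by positivity, ?_, ?_, ?_⟩
  · intro x y
    have h3 : |max (-(ε / 2)) (min (ε / 2) (P x)) - max (-(ε / 2)) (min (ε / 2) (P y))|
        ≤ |P x - P y| := by
      rcases max_cases (-(ε / 2)) (min (ε / 2) (P x)) with a | a <;>
      rcases max_cases (-(ε / 2)) (min (ε / 2) (P y)) with b | b <;>
      rcases min_cases (ε / 2) (P x) with c | c <;>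
      rcases min_cases (ε / 2) (P y) with e | e <;>
      rw [a.1, b.1] <;>
      (try rw [c.1]) <;> (try rw [e.1]) <;>
      rw [abs_le] <;>
      constructor <;>
      cases abs_cases (P x - P y) <;>
      linarith [a.2, b.2, c.2, e.2]
    have h4 := h1 x y
    have h5 : P x - max (-(ε / 2)) (min (ε / 2) (P x)) -
        (P y - max (-(ε / 2)) (min (ε / 2) (P y))) = (P x - P y) -
        (max (-(ε / 2)) (min (ε / 2) (P x)) - max (-(ε / 2)) (min (ε / 2) (P y))) := by ring
    show |P x - max (-(ε / 2)) (min (ε / 2) (P x)) -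
        (P y - max (-(ε / 2)) (min (ε / 2) (P y)))| ≤ 2 * n * dist x y
    rw [h5]
    have h6 := abs_sub (P x - P y)
      (max (-(ε / 2)) (min (ε / 2) (P x)) - max (-(ε / 2)) (min (ε / 2) (P y)))
    linarith
  · intro x
    have h3 : |max (-(ε / 2)) (min (ε / 2) (P x))| ≤ ε / 2 := by
      rw [abs_le]
      exact ⟨le_max_left _ _, max_le (by linarith) (min_le_left _ _)⟩
    have h4 := h2 x
    have h5 : P x - max (-(ε / 2)) (min (ε / 2) (P x)) - d x = (P x - d x) -
        max (-(ε / 2)) (min (ε / 2) (P x)) := by ring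
    show |P x - max (-(ε / 2)) (min (ε / 2) (P x)) - d x| ≤ ε
    rw [h5]
    have h6 := abs_sub (P x - d x) (max (-(ε / 2)) (min (ε / 2) (P x)))
    linarith
  · intro x hx
    have h4 := abs_le.1 (h2 x)
    rw [hx, sub_zero] at h4
    show P x - max (-(ε / 2)) (min (ε / 2) (P x)) = 0
    rw [min_eq_right h4.2, max_eq_right h4.1, sub_self]

theorem norm_le_sum {m : ℕ} (v : EuclideanSpace ℝ (Fin m)) : ‖v‖ ≤ ∑ i, |v i| := by
  conv_lhs => rw [← (EuclideanSpace.basisFun (Fin m) ℝ).sum_repr v]
  refine (norm_sum_le _ _).trans (Finset.sum_le_sum fun i _ => ?_)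
  rw [norm_smul]
  simp

theorem lip_approx_vec {X : Type} [MetricSpace X] [CompactSpace X] [Nonempty X] {m : ℕ}
    (d : X → EuclideanSpace ℝ (Fin m)) (hd : Continuous d) (ε : ℝ) (hε : 0 < ε) :
    ∃ (n : ℝ) (P : X → EuclideanSpace ℝ (Fin m)), 0 ≤ n ∧ (∀ x y, ‖P x - P y‖ ≤ n * dist x y) ∧
      (∀ x, ‖P x - d x‖ < ε) ∧ ∀ x, d x = 0 → P x = 0 := by
  have hc : ∀ i, Continuous fun x => d x i := fun i =>
    (EuclideanSpace.proj (𝕜 := ℝ) i).continuous.comp hd
  choose n P hn h1 h2 h3 using fun i : Fin m =>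
    lip_approx0 (fun x => d x i) (hc i) (ε / (m + 1)) (by positivity)
  refine ⟨∑ i, n i, fun x => WithLp.toLp 2 (fun i => P i x), Finset.sum_nonneg fun i _ => hn i,
    ?_, ?_, ?_⟩
  · intro x y
    refine (norm_le_sum _).trans ?_
    rw [Finset.sum_mul]
    refine Finset.sum_le_sum fun i _ => ?_
    simpa using h1 i x y
  · intro x
    refine (norm_le_sum _).trans_lt ?_
    calc ∑ i, |((WithLp.toLp 2 (fun i => P i x) : EuclideanSpace ℝ (Fin m)) - d x) i|
        ≤ ∑ _i : Fin m, ε / (m + 1) := by
          refine Finset.sum_le_sum fun i _ => ?_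
          simpa using h2 i x
      _ = m * (ε / (m + 1)) := by simp
      _ < ε := by
          have hm : (0 : ℝ) < (m : ℝ) + 1 := by positivity
          rw [mul_div_assoc', div_lt_iff₀ hm]
          linarith
  · intro x hx
    ext i
    simpa using h3 i x (by rw [hx]; simp)

theorem taskNulOne : TaskNulOne := by
  intro S _ _ _ hS p C l hl hl0 hl1
  obtain ⟨m, ι, r, K, ρ, hρ, hι, hr, hri⟩ := hS
  have hC : 0 ≤ C := by
    have h := hl 0 1
    simp only [zero_sub, abs_neg, abs_one, mul_one] at h
    exact le_trans dist_nonneg h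
  have hlc : Continuous l := by
    have : LipschitzWith C.toNNReal l := by
      apply LipschitzWith.of_dist_le_mul
      intro x y
      rw [Real.coe_toNNReal C hC, Real.dist_eq]
      exact hl x y
    exact this.continuous
  let γ : Path p p :=
    { toFun := fun s => l s
      continuous_toFun := hlc.comp continuous_subtype_val
      source' := by simpa using hl0
      target' := by simpa using hl1 }
  obtain ⟨F⟩ : Path.Homotopic γ (Path.refl p) := SimplyConnectedSpace.paths_homotopic _ _
  -- the bilinear extension of the boundary values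
  let b : I × I → EuclideanSpace ℝ (Fin m) := fun x =>
    ι p + (1 - (x.2 : ℝ)) • (ι (l x.1) - ι p)
  have hιc := hι.continuous
  have hb : Continuous b := by
    have h1 : Continuous fun x : I × I => ι (l x.1) :=
      hιc.comp (hlc.comp (continuous_subtype_val.comp continuous_fst))
    have h2 : Continuous fun x : I × I => (x.2 : ℝ) := continuous_subtype_val.comp continuous_snd
    exact continuous_const.add ((continuous_const.sub h2).smul (h1.sub continuous_const))
  let d : I × I → EuclideanSpace ℝ (Fin m) := fun x => ι (F (x.2, x.1)) - b x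
  have hd : Continuous d := by
    have h1 : Continuous fun x : I × I => ι (F (x.2, x.1)) :=
      hιc.comp (F.continuous.comp (continuous_snd.prodMk continuous_fst))
    exact h1.sub hb
  obtain ⟨n, E, hn, hE1, hE2, hE3⟩ := lip_approx_vec d hd ρ hρ
  let Q : I × I → EuclideanSpace ℝ (Fin m) := fun x => b x + E x
  have hQ : ∀ x, Q x ∈ Metric.thickening ρ (Set.range ι) := by
    intro x
    rw [Metric.mem_thickening_iff]
    refine ⟨ι (F (x.2, x.1)), ⟨_, rfl⟩, ?_⟩
    rw [dist_eq_norm]
    have : Q x - ι (F (x.2, x.1)) = E x - d x := by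
      simp only [Q, d]
      abel
    rw [this]
    exact hE2 x
  have hιd : ∀ x y, ‖ι x - ι y‖ ≤ K * dist x y := by
    intro x y
    rw [← dist_eq_norm]
    exact hι.dist_le_mul x y
  have hK : (0 : ℝ) ≤ K := K.2
  -- `Q` is Lipschitz in each variable
  have hQ1 : ∀ h h' t : I, ‖Q (h, t) - Q (h', t)‖ ≤ (K * C + n) * dist h h' := by
    intro h h' t
    have h1 : Q (h, t) - Q (h', t) = (1 - (t : ℝ)) • (ι (l h) - ι (l h')) +
        (E (h, t) - E (h', t)) := by
      simp only [Q, b]
      module
    rw [h1]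
    refine (norm_add_le _ _).trans ?_
    have h2 : ‖(1 - (t : ℝ)) • (ι (l h) - ι (l h'))‖ ≤ K * C * dist h h' := by
      rw [norm_smul, Real.norm_eq_abs, abs_of_nonneg (by linarith [t.2.2])]
      have h3 := hιd (l h) (l h')
      have h4 := hl h h'
      have h5 : (K : ℝ) * dist (l h) (l h') ≤ K * (C * |(h : ℝ) - h'|) :=
        mul_le_mul_of_nonneg_left h4 hK
      have h6 : dist h h' = |(h : ℝ) - h'| := by rw [Subtype.dist_eq, Real.dist_eq]
      rw [h6]
      calc (1 - (t : ℝ)) * ‖ι (l h) - ι (l h')‖ ≤ 1 * ‖ι (l h) - ι (l h')‖ :=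
            mul_le_mul_of_nonneg_right (by linarith [t.2.1]) (norm_nonneg _)
        _ ≤ K * C * |(h : ℝ) - h'| := by linarith
    have h7 : ‖E (h, t) - E (h', t)‖ ≤ n * dist h h' := by
      refine (hE1 _ _).trans ?_
      rw [Prod.dist_eq]
      simp
    linarith
  have hQ2 : ∀ h t t' : I, ‖Q (h, t) - Q (h, t')‖ ≤ (K * C + n) * dist t t' := by
    intro h t t'
    have h1 : Q (h, t) - Q (h, t') = ((t' : ℝ) - t) • (ι (l h) - ι p) +
        (E (h, t) - E (h, t')) := by
      simp only [Q, b]
      module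
    rw [h1]
    refine (norm_add_le _ _).trans ?_
    have h2 : ‖((t' : ℝ) - t) • (ι (l h) - ι p)‖ ≤ K * C * dist t t' := by
      rw [norm_smul, Real.norm_eq_abs]
      have h3 := hιd (l h) p
      have h4 := hl h 0
      rw [hl0, sub_zero, abs_of_nonneg h.2.1] at h4
      have h4' : dist (l h) p ≤ C := h4.trans (by nlinarith [h.2.2])
      have h5 : (K : ℝ) * dist (l h) p ≤ K * C := mul_le_mul_of_nonneg_left h4' hK
      have h6 : dist t t' = |(t' : ℝ) - t| := by rw [Subtype.dist_eq, Real.dist_eq, abs_sub_comm]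
      rw [h6, mul_comm]
      exact mul_le_mul_of_nonneg_right (h3.trans h5) (abs_nonneg _)
    have h7 : ‖E (h, t) - E (h, t')‖ ≤ n * dist t t' := by
      refine (hE1 _ _).trans ?_
      rw [Prod.dist_eq]
      simp
    linarith
  -- the projection to the interval
  let pr : ℝ → I := Set.projIcc 0 1 zero_le_one
  have hpr : ∀ x y, dist (pr x) (pr y) ≤ |x - y| := by
    intro x y
    have h := (LipschitzWith.projIcc (a := (0 : ℝ)) (b := 1) zero_le_one).dist_le_mul x y
    rw [NNReal.coe_one, one_mul, Real.dist_eq] at h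
    exact h
  have hpr0 : pr 0 = 0 := Set.projIcc_left _
  have hpr1 : pr 1 = 1 := Set.projIcc_right _
  have hrd : ∀ x y, dist (r (Q x)) (r (Q y)) ≤ K * ‖Q x - Q y‖ := by
    intro x y
    rw [← dist_eq_norm]
    exact hr.dist_le_mul _ (hQ x) _ (hQ y)
  have hKC : 0 ≤ (K : ℝ) * C + n := by positivity
  refine ⟨K * (K * C + n), fun h t => r (Q (pr h, pr t)), ?_, ?_, ?_, ?_, ?_⟩
  · intro t x y
    refine (hrd _ _).trans ?_
    rw [mul_assoc]
    refine mul_le_mul_of_nonneg_left ?_ hK
    exact (hQ1 _ _ _).trans (mul_le_mul_of_nonneg_left (hpr x y) hKC)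
  · intro h x y
    refine (hrd _ _).trans ?_
    rw [mul_assoc]
    refine mul_le_mul_of_nonneg_left ?_ hK
    exact (hQ2 _ _ _).trans (mul_le_mul_of_nonneg_left (hpr x y) hKC)
  · intro h h0 h1
    have e1 : ((pr h : I) : ℝ) = h := by
      show ((Set.projIcc (0 : ℝ) 1 zero_le_one h : I) : ℝ) = h
      rw [Set.projIcc_of_mem _ ⟨h0, h1⟩]
    have hb0 : b (pr h, 0) = ι (l h) := by
      simp [b, e1]
    have hd0 : d (pr h, 0) = 0 := by
      simp only [d]
      rw [hb0, F.apply_zero]
      show ι (l (pr h)) - ι (l h) = 0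
      rw [e1, sub_self]
    show r (Q (pr h, pr 0)) = l h
    have : Q (pr h, pr 0) = ι (l h) := by
      simp only [Q]
      rw [hpr0, hE3 _ hd0, hb0, add_zero]
    rw [this, hri]
  · intro h
    have hb0 : b (pr h, 1) = ι p := by
      simp [b]
    have hd0 : d (pr h, 1) = 0 := by
      simp only [d]
      rw [hb0, F.apply_one]
      show ι p - ι p = 0
      rw [sub_self]
    have : Q (pr h, pr 1) = ι p := by
      simp only [Q]
      rw [hpr1, hE3 _ hd0, hb0, add_zero]
    show r (Q (pr h, pr 1)) = p
    rw [this, hri]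
  · intro t
    constructor
    · have hb0 : b (0, pr t) = ι p := by
        simp [b, hl0]
      have hd0 : d (0, pr t) = 0 := by
        simp only [d]
        rw [hb0]
        have : F (pr t, 0) = p := F.source _
        rw [this, sub_self]
      have : Q (pr 0, pr t) = ι p := by
        simp only [Q]
        rw [hpr0, hE3 _ hd0, hb0, add_zero]
      show r (Q (pr 0, pr t)) = p
      rw [this, hri]
    · have hb0 : b (1, pr t) = ι p := by
        simp [b, hl1]
      have hd0 : d (1, pr t) = 0 := by
        simp only [d]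
        rw [hb0]
        have : F (pr t, 1) = p := F.target _
        rw [this, sub_self]
      have : Q (pr 1, pr t) = ι p := by
        simp only [Q]
        rw [hpr1, hE3 _ hd0, hb0, add_zero]
      show r (Q (pr 1, pr t)) = p
      rw [this, hri]

end Pool.Agent.H275R3.LH
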